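import Pool.Agent.N126.IS.Stm

/-!
Generic one-parameter families of forms (the statement FAM).
-/

set_option autoImplicit false

open Pool.Agent.W602.GT LinearAlgebra.Projectivization MvPolynomial Pool.Agent.N126.IS

namespace Pool.Agent.N383.IS

section points

variable {k : Type} [Field k] {n : ℕ}

theorem pow_ne {x : Fin (n + 1) → k} (hx : x ≠ 0) (m : ℕ) : (fun i => x i ^ m) ≠ 0 := by
  obtain ⟨i, hi⟩ := Function.ne_iff.1 hx
  intro h
  exact pow_ne_zero m hi (congrFun h i)

/-- the power map -/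
noncomputable def g (m : ℕ) (p : ℙ k (Fin (n + 1) → k)) : ℙ k (Fin (n + 1) → k) :=
  Projectivization.mk k (fun i => p.rep i ^ m) (pow_ne p.rep_nonzero m)

theorem g_mk (m : ℕ) (c : Fin (n + 1) → k) (hc : c ≠ 0) :
    g m (Projectivization.mk k c hc) =
      Projectivization.mk k (fun i => c i ^ m) (pow_ne hc m) := by
  obtain ⟨u, hu⟩ := Projectivization.exists_smul_eq_mk_rep k c hc
  refine (Projectivization.mk_eq_mk_iff' k _ _ _ _).2 ⟨(u : k) ^ m, ?_⟩
  funext i
  have := congrFun hu i
  simp only [Pi.smul_apply, smul_eq_mul] at *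
  rw [← this, Units.smul_def, smul_eq_mul, mul_pow]

theorem g_fiber [IsAlgClosed k] (m : ℕ) (hm : 0 < m) (q : ℙ k (Fin (n + 1) → k)) :
    {p | g m p = q}.Finite := by
  classical
  by_cases h : ∃ p0, g m p0 = q
  · obtain ⟨p0, rfl⟩ := h
    have hr : {z : k | z ^ m = 1}.Finite := by
      refine (Polynomial.nthRoots m (1 : k)).toFinset.finite_toSet.subset ?_
      intro z hz
      rw [Finset.mem_coe, Multiset.mem_toFinset, Polynomial.mem_nthRoots hm]
      exact hz
    have hZ : (Set.univ.pi fun _ : Fin (n + 1) => {z : k | z ^ m = 1}).Finite :=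
      Set.Finite.pi fun _ => hr
    let F : (Fin (n + 1) → k) → ℙ k (Fin (n + 1) → k) := fun ζ =>
      if h : (fun i => ζ i * p0.rep i) ≠ 0 then Projectivization.mk k _ h else p0
    refine (hZ.image F).subset ?_
    intro p hp
    have hp' : g m p = g m p0 := hp
    obtain ⟨t, ht⟩ := (Projectivization.mk_eq_mk_iff' k _ _ _ _).1 hp'
    have hti : ∀ i, t * p0.rep i ^ m = p.rep i ^ m := fun i => congrFun ht i
    have ht0 : t ≠ 0 := by
      rintro rfl
      apply pow_ne p.rep_nonzero m
      funext i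
      rw [← hti i, zero_mul]
      rfl
    obtain ⟨τ, hτ⟩ := IsAlgClosed.exists_pow_nat_eq t hm
    have hτ0 : τ ≠ 0 := by
      rintro rfl
      rw [zero_pow hm.ne'] at hτ
      exact ht0 hτ.symm
    refine ⟨fun i => if p0.rep i = 0 then 1 else p.rep i / (τ * p0.rep i), ?_, ?_⟩
    · rw [Set.mem_univ_pi]
      intro i
      show (if p0.rep i = 0 then (1 : k) else p.rep i / (τ * p0.rep i)) ^ m = 1
      split_ifs with h0
      · exact one_pow m
      · rw [div_pow, mul_pow, hτ, hti i]
        apply div_self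
        rw [← hti i]
        exact mul_ne_zero ht0 (pow_ne_zero m h0)
    · have he : (fun i => (if p0.rep i = 0 then (1 : k) else p.rep i / (τ * p0.rep i)) *
          p0.rep i) = τ⁻¹ • p.rep := by
        funext i
        simp only [Pi.smul_apply, smul_eq_mul]
        split_ifs with h0
        · have : p.rep i = 0 := by
            have := hti i
            rw [h0, zero_pow hm.ne', mul_zero] at this
            exact pow_eq_zero_iff hm.ne' |>.1 this.symm
          rw [h0, this, mul_zero, mul_zero]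
        · field_simp
      have hne : (fun i => (if p0.rep i = 0 then (1 : k) else p.rep i / (τ * p0.rep i)) *
          p0.rep i) ≠ 0 := by
        rw [he]
        exact smul_ne_zero (inv_ne_zero hτ0) p.rep_nonzero
      show (if h : (fun i => (if p0.rep i = 0 then (1 : k) else p.rep i / (τ * p0.rep i)) *
          p0.rep i) ≠ 0 then Projectivization.mk k _ h else p0) = p
      rw [dif_pos hne]
      conv_rhs => rw [← p.mk_rep]
      exact (Projectivization.mk_eq_mk_iff' k _ _ _ _).2 ⟨τ⁻¹, he.symm⟩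
  · have : {p | g m p = q} = (∅ : Set (ℙ k (Fin (n + 1) → k))) := by
      ext p
      simp only [Set.mem_empty_iff_false, iff_false]
      exact fun hp => h ⟨p, hp⟩
    rw [this]
    exact Set.finite_empty

theorem exists_points [IsAlgClosed k] (S : Set (ℙ k (Fin (n + 1) → k))) (hS : S.Infinite)
    (m : ℕ) (hm : 0 < m) (N : ℕ) :
    ∃ p : Fin N → ℙ k (Fin (n + 1) → k), (∀ a, p a ∈ S) ∧
      ∀ a b, a ≠ b → g m (p a) ≠ g m (p b) := by
  have hI : (g m '' S).Infinite := by
    intro hfin
    refine hS (Set.Finite.of_finite_fibers (g m) hfin fun x _ => ?_)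
    exact (g_fiber m hm x).subset fun p hp => hp.2
  let e := hI.natEmbedding
  have hc : ∀ a : Fin N, ∃ p, p ∈ S ∧ g m p = (e a : ℙ k (Fin (n + 1) → k)) :=
    fun a => (e a).2
  choose p hp1 hp2 using hc
  refine ⟨p, hp1, fun a b hab h => hab ?_⟩
  rw [hp2, hp2] at h
  exact Fin.ext (e.injective (Subtype.ext h))

end points

theorem alg_of_trdeg {k K : Type} [Field k] [Field K] [Algebra k K] (s : K)
    (hs : Transcendental k s) (h : Algebra.trdeg k K = 1) (w : K) :
    IsAlgebraic (IntermediateField.adjoin k {s}) w := by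
  have h1 : AlgebraicIndependent k (fun _ : Unit => s) :=
    algebraicIndependent_unique_type_iff.2 hs
  have h2 : IsTranscendenceBasis k (fun _ : Unit => s) :=
    h1.isTranscendenceBasis_of_trdeg_le_of_finite (by rw [h]; simp)
  have h3 := h2.isAlgebraic_field
  rw [Set.range_const] at h3
  exact h3.isAlgebraic w

/-- the value of a member of the family -/
theorem val_family {k K : Type} [Field k] [Field K] [Algebra k K] {n M : ℕ} (m : ℕ) (s : K)
    (P : Fin (M + 1) → MvPolynomial (Fin (n + 1)) k) (x : Fin (n + 1) → K) :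
    val x (expand m (∑ j : Fin (M + 1), C (s ^ (j : ℕ)) * map (algebraMap k K) (P j))) =
      ∑ j : Fin (M + 1), s ^ (j : ℕ) * aeval (fun i => x i ^ m) (P j) := by
  have hx : x ^ m = fun i => x i ^ m := rfl
  rw [val, aeval_expand, map_sum, hx]
  refine Finset.sum_congr rfl fun j _ => ?_
  rw [map_mul, aeval_C, aeval_map_algebraMap]
  rfl

theorem main_FAM (h1 : S_SPEC) (h2 : S_LIN) (h3 : S_CNT) : S_FAM := by
  classical
  intro k0 k K _ _ _ _ _ _ _ _ s hs htr n D M m hnD hnM hm P hP hind μ hμ
  have : CharZero k := charZero_of_injective_algebraMap (algebraMap k0 k).injective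
  by_contra hinf
  obtain ⟨p, hpS, hpne⟩ := exists_points _ hinf m hm (2 * n + 1)
  choose c hc hcV hpc using hpS
  have hcm : ∀ a a', a ≠ a' → ∀ t : k, (fun i => c a i ^ m) ≠ t • fun i => c a' i ^ m := by
    intro a a' haa t ht
    apply hpne a a' haa
    rw [hpc a, hpc a', g_mk, g_mk]
    exact (Projectivization.mk_eq_mk_iff' k _ _ _ _).2 ⟨t, ht.symm⟩
  have hzero : ∀ a, ∑ j : Fin (M + 1), s ^ (j : ℕ) *
      aeval (fun i => (μ i * algebraMap k K (c a i)) ^ m) (P j) = 0 := by
    intro a
    rw [← val_family]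
    exact (hcV a).2 ()
  let Wm : Finset K := Finset.univ.image μ ∪ Finset.univ.image fun i => (μ i)⁻¹
  obtain ⟨S0, hS0⟩ := h1 k K s hs Wm (fun w _ => alg_of_trdeg s hs htr w)
  -- specialisations
  have hspec : ∀ σ : k, σ ∉ S0 → ∃ ν : Fin (n + 1) → k, (∀ i, ν i ≠ 0) ∧
      ∀ a, ∑ j : Fin (M + 1), σ ^ (j : ℕ) *
        aeval (fun i => (ν i * c a i) ^ m) (P j) = 0 := by
    intro σ hσ
    obtain ⟨φ, hφ⟩ := hS0 σ hσ
    let A : Subalgebra k K := Algebra.adjoin k (insert s (Wm : Set K))
    have hμA : ∀ i, μ i ∈ A := fun i => Algebra.subset_adjoin <| Set.mem_insert_of_mem _ <| by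
      rw [Finset.mem_coe]
      exact Finset.mem_union_left _ (Finset.mem_image_of_mem _ (Finset.mem_univ i))
    have hμA' : ∀ i, (μ i)⁻¹ ∈ A := fun i => Algebra.subset_adjoin <| Set.mem_insert_of_mem _ <| by
      rw [Finset.mem_coe]
      exact Finset.mem_union_right _ (Finset.mem_image_of_mem (fun i => (μ i)⁻¹) (Finset.mem_univ i))
    let sA : A := ⟨s, Algebra.subset_adjoin (Set.mem_insert _ _)⟩
    refine ⟨fun i => φ ⟨μ i, hμA i⟩, fun i => ?_, fun a => ?_⟩
    · have h : (⟨μ i, hμA i⟩ : A) * ⟨(μ i)⁻¹, hμA' i⟩ = 1 := by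
        apply Subtype.ext
        exact mul_inv_cancel₀ (hμ i)
      intro h0
      have := congrArg φ h
      have h0' : φ ⟨μ i, hμA i⟩ = 0 := h0
      rw [map_mul, map_one, h0', zero_mul] at this
      exact zero_ne_one this
    · have hAz : ∑ j : Fin (M + 1), sA ^ (j : ℕ) *
          aeval (fun i => ((⟨μ i, hμA i⟩ : A) * algebraMap k A (c a i)) ^ m) (P j) = 0 := by
        have hinj : Function.Injective A.val := Subtype.val_injective
        apply hinj
        rw [map_zero, map_sum, ← hzero a]
        refine Finset.sum_congr rfl fun j _ => ?_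
        rw [map_mul, map_pow, comp_aeval_apply]
        rfl
      have := congrArg φ hAz
      rw [map_zero, map_sum] at this
      rw [← this]
      refine Finset.sum_congr rfl fun j _ => ?_
      have e : φ sA = σ := hφ
      rw [map_mul, map_pow, e, comp_aeval_apply]
      refine congrArg (fun f => σ ^ (j : ℕ) * aeval f (P j)) (funext fun i => ?_)
      show (φ ⟨μ i, hμA i⟩ * c a i) ^ m = φ ((⟨μ i, hμA i⟩ * algebraMap k A (c a i)) ^ m)
      rw [map_pow, map_mul, AlgHom.commutes]
      rfl
  -- the parameters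
  have hNI : {a : ℕ | (a : k) ∉ S0}.Infinite := by
    have : ({a : ℕ | (a : k) ∈ S0}).Finite :=
      (S0.finite_toSet).preimage (Nat.cast_injective.injOn)
    exact this.infinite_compl
  let e := hNI.natEmbedding
  let σ : Fin (M + 1) → ℕ := fun j => (e j : ℕ)
  have hσi : Function.Injective σ := fun a b h =>
    Fin.ext (e.injective (Subtype.ext h))
  have hσS : ∀ j, ((σ j : ℕ) : k) ∉ S0 := fun j => (e j).2
  choose ν hν hνz using fun j => hspec (σ j : k) (hσS j)
  let A : Matrix (Fin (M + 1)) (Fin (M + 1)) k0 := Matrix.vandermonde fun j => (σ j : k0)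
  have hA : IsUnit A.det := by
    rw [isUnit_iff_ne_zero]
    exact Matrix.det_vandermonde_ne_zero_iff.2 (Nat.cast_injective.comp hσi)
  have hLI := h2 k0 k (Mon n D) (M + 1) (fun j I => (P j).coeff I.1) hind A hA
  let r : Fin (2 * n + 1) → Fin (M + 1) := Fin.castLE (by omega)
  have hr : Function.Injective r := Fin.castLE_injective _
  let B : Fin (2 * n + 1) → MvPolynomial (Fin (n + 1)) k := fun j =>
    ∑ l : Fin (M + 1), C ((σ (r j) : k) ^ (l : ℕ)) * P l
  have hB : ∀ j, (B j).IsHomogeneous D := by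
    intro j
    refine IsHomogeneous.sum _ _ _ fun l _ => ?_
    have := (isHomogeneous_C (Fin (n + 1)) ((σ (r j) : k) ^ (l : ℕ))).mul (hP l)
    rwa [zero_add] at this
  have hBI : AlgebraicIndependent k0
      (fun p : Fin (2 * n + 1) × Mon n D => (B p.1).coeff p.2.1) := by
    have hinj : Function.Injective
        (fun p : Fin (2 * n + 1) × Mon n D => ((r p.1, p.2) : Fin (M + 1) × Mon n D)) := by
      intro a b hab
      rw [Prod.mk.injEq] at hab
      exact Prod.ext (hr hab.1) hab.2
    have := hLI.comp _ hinj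
    convert this using 1
    funext q
    show coeff q.2.1 (∑ l : Fin (M + 1), C ((σ (r q.1) : k) ^ (l : ℕ)) * P l) =
      ∑ l, algebraMap k0 k (A (r q.1) l) * coeff q.2.1 (P l)
    rw [coeff_sum]
    refine Finset.sum_congr rfl fun l _ => ?_
    have : A (r q.1) l = (σ (r q.1) : k0) ^ (l : ℕ) := Matrix.vandermonde_apply _ _ _
    rw [coeff_C_mul, this, map_pow, map_natCast]
  refine h3 k0 k n D hnD B hB hBI (fun j i => ν (r j) i ^ m) (fun a i => c a i ^ m)
    (fun j i => pow_ne_zero m (hν (r j) i)) (fun a => pow_ne (hc a) m) hcm ?_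
  intro j a
  have := hνz (r j) a
  simp only [B, map_sum, map_mul, eval_C]
  rw [← this]
  refine Finset.sum_congr rfl fun l _ => ?_
  congr 1
  rw [← aeval_eq_eval]
  congr 1
  simp only [mul_pow]

end Pool.Agent.N383.IS

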